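import Pool.Agent.X323.GI.FinC

/-!
# Algebraic hyperbolicity, tori and group curves for varieties over cyclic covers

Let `k` be a field contained in `ℂ`, with algebraic closure `k'` in `ℂ`. Let `V` be a closed subset of
the projective space of dimension `n`, defined over `k'`, of dimension at most `m` (with any
singularities). For `a` in a finite set `A` let `F_a` be a member, generic over `k`, of a linear system
over `k'` of forms of degree `d_a`, and let `Z` be a set of indices `c` such that the linear systems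
contain all forms `x_c ^ (d_a - e) x_i ^ e`; let `E₀` be the linear space `x_c = 0`, `c ∈ Z`. Let `E` be
a subset of `A` and let `q_a ≥ 1` divide `d_a`, for `a ∉ E`. Let `X` be the cover of the intersection of
`V` with the hypersurfaces `F_a = 0`, `a ∈ E`, given by the equations `y_a ^ q_a = F_a (x)`, `a ∉ E`.
Suppose that the sum `δ` of the numbers `d_a + 1`, `a ∈ E`, and `(1 - 1 / q_a) d_a`, `a ∉ E`, is at least
`2 m + 1`.

Let `W = {Φ = 0}` be any projective variety (or closed algebraic set) with a morphism `φ` with finite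
fibres to `X`, and let `E_W` be the preimage of `E₀`; the pull-back `φ^*O(1)` is ample on `W`. We prove:

* `W` is algebraically hyperbolic modulo `E_W`: `(δ - 2 m) deg(f^* φ^* O(1)) ≤ 2 g - 2` for all
  nonconstant maps `f` from smooth projective curves of genus `g` to `W` with image not in `E_W`;
* all nonconstant images in `W` of group curves under rational maps lie in `E_W`. A group curve is an
  entire curve in a projective space such that each translate `φ(z + t)` is the image of `φ(z)` under a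
  rational map, for instance `z ↦ exp(z v) g` in an algebraic group, so this contains the nonconstant
  maps from all algebraic groups;
* all nonconstant holomorphic maps from one-dimensional complex tori to `W` have image in `E_W`;
* the sequences of points of `W ∖ E_W` with coordinates given by linear recurrences over towers over
  finitely generated coefficient fields are eventually periodic.

If all coefficients of the forms `F_a` together are algebraically independent over `k`, then `E_W` is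
empty: `W` is algebraically hyperbolic, and all maps from tori and from groups to `W` are constant.
-/

set_option autoImplicit false

namespace Pool.Agent.Results.MP_45e720_ag.AlgebraicHyperbolicCovers

open MvPolynomial FF Pool.Agent.W603.PV Pool.Agent.W603.LV Pool.Agent.W602.GT
  Pool.Agent.X332.GS Pool.Agent.X323.GI
open scoped LinearAlgebra.Projectivization
open Pool.Agent.TH145.MG (DimLE)
open Pool.Agent.X332.GT (Zeros)
open Pool.Agent.TH143.EL (HolMap)

variable {n N : ℕ} {B S : Type}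

/-- For every nonconstant map from a smooth projective curve, with function field `L`, to `W`, given by
the point `z` of `W` over `L`, the degree of the pull-back of `O(1)` under the composition with the map
`g s` is at most `(2 g - 2) / κ` (where `canDeg ℂ L = 2 g - 2`), if some `g s c`, `c ∈ Z`, is not zero
on the image. -/
def CurvesBounded (Φ : B → MvPolynomial (Fin (N + 1)) ℂ)
    (g : S → Fin (n + 1) → MvPolynomial (Fin (N + 1)) ℂ) (Z : Set (Fin (n + 1))) (κ : ℤ) : Prop :=
  ∀ (L : Type) [Field L] [Algebra ℂ L] [IsFF ℂ L] (z : Fin (N + 1) → L), z ≠ 0 →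
    (∀ b, aeval z (Φ b) = 0) → (∃ i j, z j ≠ 0 ∧ z i / z j ∉ Set.range (algebraMap ℂ L)) →
    ∀ s, ∀ c ∈ Z, aeval z (g s c) ≠ 0 → κ * pht ℂ (fun j => aeval z (g s j)) ≤ canDeg ℂ L

/-- Every nonconstant holomorphic map from a one-dimensional complex torus to `W` has its image in the
set of the zeros of the forms in `T`. -/
def TorusIn (Φ : B → MvPolynomial (Fin (N + 1)) ℂ) (T : Set (MvPolynomial (Fin (N + 1)) ℂ)) : Prop :=
  ∀ ω₁ ω₂ : ℂ, LinearIndependent ℝ ![ω₁, ω₂] → ∀ f : ℂ → ℙ ℂ (Fin (N + 1) → ℂ), HolMap f →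
    (∀ z, f (z + ω₁) = f z) → (∀ z, f (z + ω₂) = f z) → (∀ z b, eval (f z).rep (Φ b) = 0) →
    (∃ z w, f z ≠ f w) → ∀ z, ∀ G ∈ T, eval (f z).rep G = 0

/-- The notions of hyperbolicity of `W` modulo the zeros of the forms `g s c`, `c ∈ Z`. -/
def HyperbolicModulo (Φ : B → MvPolynomial (Fin (N + 1)) ℂ)
    (g : S → Fin (n + 1) → MvPolynomial (Fin (N + 1)) ℂ) (Z : Set (Fin (n + 1))) (κ : ℤ) : Prop :=
  CurvesBounded Φ g Z κ ∧ (∀ y, GrpImage Φ y → ∀ z, y z ∈ Zeros ℂ (pullForms g Z)) ∧
    TorusIn Φ (pullForms g Z) ∧ TowersPeriodic Φ (Zeros ℂ (pullForms g Z))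

theorem result {k : Type} [Field k] [Algebra k ℂ] {m : ℕ}
    (V : Set (MvPolynomial (Fin (n + 1)) (algebraicClosure k ℂ)))
    (hVh : ∀ f ∈ V, ∃ e, f.IsHomogeneous e) (hV : DimLE (algebraicClosure k ℂ) V m)
    {A : Type} [Fintype A] [DecidableEq A] (d : A → ℕ) (E : Finset A) (q : A → ℕ)
    (hq : ∀ a, a ∉ E → q a ≠ 0 ∧ q a ∣ d a) (hd : 2 * m + 1 ≤ covDegree d E q)
    (F : A → MvPolynomial (Fin (n + 1)) ℂ) (Φ : B → MvPolynomial (Fin (N + 1)) ℂ)
    (hΦ : ∀ b, IsForm (Φ b)) (g : S → Fin (n + 1) → MvPolynomial (Fin (N + 1)) ℂ)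
    (h : S → A → MvPolynomial (Fin (N + 1)) ℂ) (hW : FiniteMap Φ V F E q g h) :
    -- (1) generic members of linear systems
    (∀ Z : Set (Fin (n + 1)), GenericMembers k d Z F →
      HyperbolicModulo Φ g Z ((covDegree d E q : ℤ) - 2 * m)) ∧
    -- (2) forms with independent coefficients
    ((∀ a, (F a).IsHomogeneous (d a)) → (AlgebraicIndependent k
        fun p : (a : A) × {I : Fin (n + 1) →₀ ℕ // I.degree = d a} => (F p.1).coeff p.2.1) →
      (∀ (L : Type) [Field L] [Algebra ℂ L] [IsFF ℂ L] (z : Fin (N + 1) → L), z ≠ 0 →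
        (∀ b, aeval z (Φ b) = 0) → (∃ i j, z j ≠ 0 ∧ z i / z j ∉ Set.range (algebraMap ℂ L)) →
        ∃ s, (fun j => aeval z (g s j)) ≠ 0 ∧
          ((covDegree d E q : ℤ) - 2 * m) * pht ℂ (fun j => aeval z (g s j)) ≤ canDeg ℂ L) ∧
      (∀ y, ¬ GrpImage Φ y) ∧
      ∀ ω₁ ω₂ : ℂ, LinearIndependent ℝ ![ω₁, ω₂] → ∀ f : ℂ → ℙ ℂ (Fin (N + 1) → ℂ), HolMap f →
        (∀ z, f (z + ω₁) = f z) → (∀ z, f (z + ω₂) = f z) →
        (∀ z b, eval (f z).rep (Φ b) = 0) → ∀ z w, f z = f w) := by
  have key : ∀ Z : Set (Fin (n + 1)), GenericMembers k d Z F →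
      HyperbolicModulo Φ g Z ((covDegree d E q : ℤ) - 2 * m) := by
    intro Z hF
    obtain ⟨-, h2, h3, h4, -⟩ := fin_main hVh hV hF hq hd hΦ hW
    refine ⟨fun L _ _ _ z hz0 hzΦ hnc s c hc hzc =>
      fin_curve hVh hV hF hq hW L z hz0 hzΦ hnc hc hzc, h3,
      fun ω₁ ω₂ hω f hf e1 e2 e3 e4 z => ?_, h2⟩
    exact (inV_span (forms_pull hW)).1
      (h4 ω₁ ω₂ hω f hf e1 e2 (fun z => (inV_eqs hΦ).2 (e3 z)) e4 z)
  refine ⟨key, fun hFh hind => ?_⟩
  obtain ⟨h1, h2, h3, -⟩ := key Set.univ (generic_full hFh hind)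
  have hno : ∀ p : Fin (N + 1) → ℂ, p ≠ 0 → (∀ b, eval p (Φ b) = 0) →
      ∃ G ∈ pullForms g Set.univ, eval p G ≠ 0 := by
    intro p hp0 hp
    obtain ⟨⟨s, hs⟩, -⟩ := hW.2 ℂ p hp0 fun b => by
      rw [Pool.Agent.X332.GT.aeval_eval]
      exact hp b
    obtain ⟨c, hc⟩ := Function.ne_iff.1 hs
    exact ⟨g s c, ⟨s, c, Set.mem_univ _, rfl⟩, fun h0 => hc (by
      rw [Pool.Agent.X332.GT.aeval_eval, h0]
      rfl)⟩
  refine ⟨?_, ?_, ?_⟩
  · intro L _ _ _ z hz0 hzΦ hnc
    obtain ⟨⟨s, hs⟩, -⟩ := hW.2 L z hz0 hzΦ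
    obtain ⟨c, hc⟩ := Function.ne_iff.1 hs
    exact ⟨s, hs, h1 L z hz0 hzΦ hnc s c (Set.mem_univ _) hc⟩
  · intro y hy
    obtain ⟨z, w, i, j, hne⟩ := hy.2.2
    by_cases h0 : y z = 0
    · apply hne
      rw [h0, Pi.zero_apply, Pi.zero_apply, zero_mul, zero_mul]
    · obtain ⟨G, hG, hGne⟩ := hno (y z) h0 (hy.2.1 z)
      apply hGne
      rw [← Pool.Agent.X332.GT.aeval_eval]
      exact h2 y hy z G hG
  · intro ω₁ ω₂ hω f hf e1 e2 hX z w
    by_contra hne
    obtain ⟨G, hG, hGne⟩ := hno (f z).rep (f z).rep_nonzero (hX z)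
    exact hGne (h3 ω₁ ω₂ hω f hf e1 e2 hX ⟨z, w, hne⟩ z G hG)

end Pool.Agent.Results.MP_45e720_ag.AlgebraicHyperbolicCovers
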