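import Mathlib
import Pool.Agent.X333.DN.ImT
import Pool.Agent.Y221.FQ.Tor

/-!
MP_45e720_ag, Q1: maps from complex tori and hyperbolicity, for the finite images of projective
varieties given by nested sums of high powers, and of their covers.

`V = {F = 0}` in `ℙⁿ` is a projective variety whose equations are nested sums of high powers of
linear forms, or nested sums of high powers of monomials. We consider the images `X = {Φ = 0}` of
`V`, and of the finite covers `W = {Ψ = 0}` of subvarieties of `V`, under finite morphisms with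
fibres of at most `r` points. No assumption is made on the singularities and the branch loci.

`Mor`, `Onto`, `FibresLe`, `Entire`, `AllGeneral` (`Pool/Agent/Y221/FQ/Defs.lean`), `TorusRigid`,
`EllipticRigid` (`Pool/Agent/TH182/TC/Core.lean`), `GmCurve` (`Pool/Agent/W602/GT/SpGmDefs.lean`),
`HighTowers` (`Pool/Agent/TH710/ND/Proj.lean`).
-/

set_option autoImplicit false

namespace Pool.Agent.Results.MP_45e720_ag.NestedImageTori

open Pool.Agent.W602.GT Pool.Agent.Y221.FQ Pool.Agent.TH710.ND
open Pool.Agent.TH182.TC (EllipticRigid TorusRigid)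

/-- Let `V = {F = 0}`, where the forms `F_e` are nested sums with at most `h + 1` levels, at most
`s` summands at each, and exponents at least `4 (n + 1) (h + 1) 100 ^ s (r + 1) ^ 7`.

(1) Let `G : V → X = {Φ = 0}` be a surjective morphism with fibres of at most `r` points. If every
holomorphic map from a complex torus to `X` is constant, or only every holomorphic map from a
one-dimensional complex torus, then every holomorphic map from the complex plane to `X` is constant
and all closed subvarieties of positive dimension of `X` are of general type.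

(2) If every holomorphic map from a one-dimensional complex torus to `V` is constant, then all this
holds for all varieties `X = {Φ = 0}` which are the image of some projective variety `W = {Ψ = 0}`
with a morphism `B : W → V` under a morphism `G : W → X` with fibres of at most `r` points. -/
theorem result {n M : ℕ} {ι μ : Type} {F : ι → MvPolynomial (Fin (n + 1)) ℂ}
    {Φ : μ → MvPolynomial (Fin (M + 1)) ℂ} {s N h r : ℕ} (hF : HighTowers s N h F)
    (hN : (n + 1) * ((h + 1) * (4 * 10 ^ (2 * s) * (r + 1) ^ 7)) ≤ N)
    (hΦ : ∀ e, IsForm (Φ e)) :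
    (∀ G : Fin (M + 1) → MvPolynomial (Fin (n + 1)) ℂ, Mor F Φ G → Onto F Φ G → FibresLe F G r →
      (TorusRigid Φ → EllipticRigid Φ) ∧
      (EllipticRigid Φ → (∀ f, ¬ Entire Φ f) ∧ AllGeneral Φ)) ∧
    (EllipticRigid F → ∀ (m : ℕ) (κ : Type) (Ψ : κ → MvPolynomial (Fin (m + 1)) ℂ)
      (B : Fin (n + 1) → MvPolynomial (Fin (m + 1)) ℂ)
      (G : Fin (M + 1) → MvPolynomial (Fin (m + 1)) ℂ), (∀ e, IsForm (Ψ e)) → Mor Ψ F B →
      Mor Ψ Φ G → Onto Ψ Φ G → FibresLe Ψ G r → (∀ f, ¬ Entire Φ f) ∧ AllGeneral Φ) := by
  refine ⟨fun G hG hon hfib => ⟨fun h => h.elliptic, fun h => ?_⟩,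
    fun h m κ Ψ B G hΨ hB hG hon hfib =>
      Pool.Agent.X333.DN.hyp_cover' hΨ hB hG hon hfib hF hN (no_gm hF.form h)⟩
  have h1 := Pool.Agent.X333.DN.hyp_im' hΦ hG hon hfib hF hN
  have h2 := no_gm hΦ h
  exact ⟨(h1.out 0 2).2 h2, (h1.out 1 2).2 h2⟩

end Pool.Agent.Results.MP_45e720_ag.NestedImageTori
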