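import Mathlib
import Pool.Agent.X333.PW.Dom

/-!
MP_45e720_ag, Q1: maps from complex tori and hyperbolicity, for the projective varieties which are
finite unions of images of quasi-projective varieties given by nested sums of high powers, and for
the varieties dominated by their closed subvarieties.

`X = {Φ = 0}` is a projective variety in `ℙ^M`. For finitely many indices `a` let
`V_a = {F_a = 0, Q_a ≠ 0}` be quasi-projective varieties in projective spaces of any dimensions
`n a`, where the equations `F_a` are nested sums of high powers of linear forms, or nested sums of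
high powers of monomials, and `Q_a` is any form, and let `V_a → X` be morphisms given by forms,
with fibres of at most `r a` points, such that `X` is the union of their images. The morphisms need
not be finite, proper or dominant, they need not extend to `{F_a = 0}`, and nothing is assumed on
the singularities.

`SubVar Φ L w z`: `z` is the generic point, and `L` the function field, of a closed subvariety of
dimension `w` of `{Φ = 0}`; `coords ℂ x = ⊤`: `x` is the generic point of a projective variety whose
function field is the field of its coordinates. `SubVar`, `coords`, `GeneralType`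
(`Pool/Agent/W602/GT`), `Pt`, `MapOn`, `FibLe`, `Covers` (`Pool/Agent/X333/PW/Def.lean`), `Entire`,
`AllGeneral` (`Pool/Agent/Y221/FQ/Defs.lean`), `TorusCurve` (`Pool/Agent/Y221/FQ/Ell.lean`),
`TorusRigid`, `EllipticRigid` (`Pool/Agent/TH182/TC/Core.lean`), `PseudoBrody`
(`Pool/Agent/Y221/BD`), `HighTowers` (`Pool/Agent/TH710/ND/Proj.lean`).
-/

set_option autoImplicit false

namespace Pool.Agent.Results.MP_45e720_ag.PiecewiseTori

open Pool.Agent.W602.GT Pool.Agent.Y221.FQ Pool.Agent.TH710.ND Pool.Agent.X333.PW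
open Pool.Agent.TH182.TC (EllipticRigid TorusRigid)
open Pool.Agent.Y221.BD (PseudoBrody)

/-- Let the projective variety `X = {Φ = 0}` in `ℙ^M` be the union of the images of finitely many
quasi-projective varieties `V_a = {F_a = 0, Q_a ≠ 0}` in `ℙ^(n a)` under morphisms `G_a : V_a → X`
with fibres of at most `r a` points, where the forms `F_a` are nested sums with at most `h a + 1`
levels, at most `s a` summands at each, and exponents at least
`4 (n a + 1) (h a + 1) 100 ^ (s a) (ρ r a + 1) ^ 7`, `ρ ≥ 1`.

Suppose that every holomorphic map from a complex torus to `X` is constant, or only every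
holomorphic map from a one-dimensional complex torus, or only every holomorphic map from one
one-dimensional complex torus `E = ℂ / (ℤ w1 + ℤ w2)`. Then

* every holomorphic map from the complex plane to `X` is constant;
* all closed subvarieties of positive dimension of `X` are of general type;
* for all closed subvarieties `S` of `X` of dimension `w ≥ 1` and all projective varieties `Y` with a
  dominant rational map `S ⇢ Y` of degree at most `ρ` (for instance the models of the quotients of
  `S` by groups of at most `ρ` birational automorphisms), `Y` is of general type and the images of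
  all nonconstant entire curves in `Y` lie in one proper closed subset of `Y`. -/
theorem result {M : ℕ} {μ : Type} {Φ : μ → MvPolynomial (Fin (M + 1)) ℂ} {α : Type} [Finite α]
    {n : α → ℕ} {ι : α → Type} [∀ a, Finite (ι a)]
    {F : ∀ a, ι a → MvPolynomial (Fin (n a + 1)) ℂ} {Q : ∀ a, MvPolynomial (Fin (n a + 1)) ℂ}
    {G : ∀ a, Fin (M + 1) → MvPolynomial (Fin (n a + 1)) ℂ} {r s N h : α → ℕ} {ρ : ℕ}
    (hρ : 1 ≤ ρ) (hΦ : ∀ e, IsForm (Φ e)) (hcov : Covers F Q Φ G {1})
    (hG : ∀ a, MapOn (F a) (Q a) Φ (G a)) (hfib : ∀ a, FibLe (F a) (Q a) (G a) (r a))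
    (hF : ∀ a, HighTowers (s a) (N a) (h a) (F a))
    (hN : ∀ a, (n a + 1) * ((h a + 1) * (4 * 10 ^ (2 * s a) * (ρ * r a + 1) ^ 7)) ≤ N a) :
    (TorusRigid Φ → EllipticRigid Φ) ∧
    ((EllipticRigid Φ ∨ ∃ w1 w2 : ℂ, LinearIndependent ℝ ![w1, w2] ∧
        ∀ g, ¬ TorusCurve w1 w2 Φ g) →
      (∀ f, ¬ Entire Φ f) ∧ AllGeneral Φ ∧
      ∀ (L : Type) [Field L] [Algebra ℂ L] (w : ℕ) (z : Fin (M + 1) → L), 1 ≤ w →
        SubVar Φ L w z → ∀ (L0 : Type) [Field L0] [Algebra ℂ L0] [Algebra L0 L]
          [IsScalarTower ℂ L0 L] [FiniteDimensional L0 L], Module.finrank L0 L ≤ ρ →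
          ∀ (M' : ℕ) (x : Fin (M' + 1) → L0), x ≠ 0 → coords ℂ x = ⊤ →
            GeneralType ℂ L0 w ∧ PseudoBrody x) := by
  refine ⟨fun h => h.elliptic, fun hX => ?_⟩
  have hno : ∀ P, ¬ GmCurve Φ P := by
    rcases hX with h | ⟨w1, w2, hw, h⟩
    · exact no_gm hΦ h
    · exact no_gm_of_e hw hΦ h
  have hT : ∀ H ∈ ({1} : Set (MvPolynomial (Fin (M + 1)) ℂ)), IsForm H := by
    rintro H rfl
    exact ⟨0, MvPolynomial.isHomogeneous_one _ _⟩
  have hval : ∀ {A : Type} [Field A] [Algebra ℂ A] (x : Fin (M + 1) → A),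
      val x (1 : MvPolynomial (Fin (M + 1)) ℂ) ≠ 0 := by
    intro A _ _ x
    unfold val
    rw [map_one]
    exact one_ne_zero
  have hGm : ∀ P, GmCurve Φ P → ∀ t : ℂ, t ≠ 0 →
      ∀ H ∈ ({1} : Set (MvPolynomial (Fin (M + 1)) ℂ)), val (fun i => (P i).eval t) H = 0 :=
    fun P hP => absurd hP (hno P)
  have hN' : ∀ a, (n a + 1) * ((h a + 1) * (4 * 10 ^ (2 * s a) * (r a + 1) ^ 7)) ≤ N a := by
    intro a
    refine le_trans (Nat.mul_le_mul_left _ (Nat.mul_le_mul_left _ (Nat.mul_le_mul_left _
      (Nat.pow_le_pow_left ?_ 7)))) (hN a)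
    exact Nat.add_le_add_right (Nat.le_mul_of_pos_left _ hρ) 1
  have h0 := ent_tfae hΦ hcov hG hfib hF hN' hT
  have e1 : ∀ f, Entire Φ f → ∀ t, ∀ H ∈ ({1} : Set (MvPolynomial (Fin (M + 1)) ℂ)),
    val (f t) H = 0 := (h0.out 1 0).1 hGm
  have e2 : Pool.Agent.X333.DC.GenMod Φ {1} := (h0.out 1 2).1 hGm
  refine ⟨fun f hf => hval (f 0) (e1 f hf 0 1 rfl), ?_, ?_⟩
  · intro K _ _ w y hw hy
    exact e2 K w y hw hy ⟨1, rfl, hval y⟩
  · intro L _ _ w z hw hz L0 _ _ _ _ _ hL M' x hx hgen
    exact dom_pw hΦ hcov hG hfib hF hN hT hGm hw hz ⟨1, rfl, hval z⟩ hL hx hgen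

end Pool.Agent.Results.MP_45e720_ag.PiecewiseTori
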