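import Pool.Agent.X316.ZE.Pub
import Pool.Agent.TH600.LK.Ell

/-!
# Complex tori and entire curves built from elliptic functions and the zeta function

A family `u` of meromorphic functions on the plane is called jointly universal if the translates of
every finite subfamily approximate all tuples of zero-free entire functions uniformly on some disc.
By Voronin's theorem the Riemann zeta function alone is such a family. For a lattice let `B` be the
ring of the polynomials in the elliptic functions of the lattice, the functions `u j` and all their
derivatives. A curve is built from elliptic functions and `u` if for some lattice it is algebraic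
over `B`, or has homogeneous coordinates in the smallest set of meromorphic functions which contains
the quotients of elements of `B` and is closed under sums, products and meromorphic solutions of
linear systems `y' = A y` with coefficients in the set.

We prove that a closed subset `X` of the projective space receives a nonconstant holomorphic map
from a complex torus of dimension one if and only if it receives a nonconstant map from the plane
which is built from elliptic functions and the Riemann zeta function, and the same holds for all
jointly universal families instead of the zeta function.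
-/

set_option autoImplicit false

namespace Pool.Agent.Results.MP_45e720_ag.UniversalTorusCurves

open Filter MvPolynomial
open scoped LinearAlgebra.Projectivization
open Pool.Agent.TH143.EL (HolMap InV TorusMapsIn Ell)
open Pool.Agent.TH600.LK (torus_coords_ell)
open Pool.Agent.Y377.IL (IterLin IteratedOver AlgebraicOver)
open Pool.Agent.X316.ZG (JointlyUniversal)
open Pool.Agent.X316.ZE (dringB built_torus)

variable {N : ℕ}

/-- The curve `f` is built from the elliptic functions with the periods `ω₁` and `ω₂` and the
functions `u j`: with `B` the ring of the polynomials in these elliptic functions, the functions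
`u j` and all their derivatives, the curve has homogeneous coordinates in the smallest set of
meromorphic functions which contains the quotients of elements of `B` and is closed under sums,
products and meromorphic solutions of linear systems over the set, or it is algebraic over `B`. -/
def BuiltFrom {ι : Type} (ω₁ ω₂ : ℂ) (u : ι → ℂ → ℂ) (f : ℂ → ℙ ℂ (Fin (N + 1) → ℂ)) : Prop :=
  IteratedOver (dringB (Ell ω₁ ω₂) u) f ∨ AlgebraicOver (dringB (Ell ω₁ ω₂) u) f

/-- All holomorphic maps from one-dimensional complex tori to the projective algebraic set of `I` are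
constant. -/
def TorusConstant (I : Ideal (MvPolynomial (Fin (N + 1)) ℂ)) : Prop :=
  ∀ ω₁ ω₂ : ℂ, LinearIndependent ℝ ![ω₁, ω₂] → ∀ t : ℂ → ℙ ℂ (Fin (N + 1) → ℂ), HolMap t →
    (∀ z, t (z + ω₁) = t z) → (∀ z, t (z + ω₂) = t z) → (∀ z, InV I (t z)) → ∀ z w, t z = t w

/-- All entire curves in the projective algebraic set of `I` which are built from elliptic functions
and the functions `u j` are constant. -/
def BuiltConstant {ι : Type} (u : ι → ℂ → ℂ) (I : Ideal (MvPolynomial (Fin (N + 1)) ℂ)) : Prop :=
  ∀ ω₁ ω₂ : ℂ, LinearIndependent ℝ ![ω₁, ω₂] → ∀ f : ℂ → ℙ ℂ (Fin (N + 1) → ℂ), HolMap f →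
    BuiltFrom ω₁ ω₂ u f → (∀ z, InV I (f z)) → ∀ z w, f z = f w

theorem ell_le {ι : Type} {ω₁ ω₂ : ℂ} {u : ι → ℂ → ℂ} {g : ℂ → ℂ} (hg : g ∈ Ell ω₁ ω₂) :
    g ∈ dringB (Ell ω₁ ω₂) u :=
  ⟨hg.1, g, Algebra.subset_adjoin (Or.inl hg), Eventually.of_forall fun _ => rfl⟩

/-- tori are built from elliptic functions -/
theorem built_of_torus {ι : Type} (u : ι → ℂ → ℂ) {f : ℂ → ℙ ℂ (Fin (N + 1) → ℂ)} (hf : HolMap f)
    {ω₁ ω₂ : ℂ} (h1 : ∀ z, f (z + ω₁) = f z) (h2 : ∀ z, f (z + ω₂) = f z) :
    BuiltFrom ω₁ ω₂ u f := by
  obtain ⟨h, hl, hr⟩ := torus_coords_ell hf h1 h2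
  refine Or.inl ⟨fun j z => h z j, fun j => ?_, hr⟩
  have h3 := IterLin.quot (ell_le (u := u) (hl j)) (dringB (Ell ω₁ ω₂) u).one_mem
  have h4 : (fun z => h z j / (1 : ℂ → ℂ) z) = fun z => h z j := by
    funext z
    exact div_one _
  rwa [h4] at h3

theorem const_of_torus {ι : Type} {u : ι → ℂ → ℂ} (hu : JointlyUniversal u)
    {I : Ideal (MvPolynomial (Fin (N + 1)) ℂ)} (hT : TorusConstant I) : BuiltConstant u I := by
  intro ω₁ ω₂ hω f hf hb hI z w
  by_contra hzw
  have h3 := built_torus (I := I) (I' := ⊤) (fun ω₁ ω₂ hind t ht h4 h5 h6 h7 => by
    obtain ⟨a, b, hab⟩ := h7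
    exact absurd (hT ω₁ ω₂ hind t ht h4 h5 h6 a b) hab) hf ⟨ω₁, ω₂, hω, ι, u, hu, hb⟩ hI
    ⟨z, w, hzw⟩ z 1 Submodule.mem_top ⟨0, isHomogeneous_one _ _⟩
  rw [map_one] at h3
  exact one_ne_zero h3

/-- **Tori and curves built from elliptic and universal functions.** Let `X` be the projective
algebraic set of `I`. The following are equivalent: (i) every holomorphic map from a one-dimensional
complex torus to `X` is constant, (ii) every entire curve in `X` which is built from elliptic
functions and a jointly universal family is constant, (iii) every entire curve in `X` which is built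
from elliptic functions and the Riemann zeta function is constant. -/
theorem result (I : Ideal (MvPolynomial (Fin (N + 1)) ℂ)) :
    [TorusConstant I, ∀ (ι : Type) (u : ι → ℂ → ℂ), JointlyUniversal u → BuiltConstant u I,
      BuiltConstant (fun _ : Unit => riemannZeta) I].TFAE ∧
    JointlyUniversal fun _ : Unit => riemannZeta := by
  refine ⟨?_, Pool.Agent.X316.ZG.zeta_universal⟩
  tfae_have 1 → 2 := fun h ι u hu => const_of_torus hu h
  tfae_have 2 → 3 := fun h => h _ _ Pool.Agent.X316.ZG.zeta_universal
  tfae_have 3 → 1 := fun h ω₁ ω₂ hω t ht h1 h2 hI => h ω₁ ω₂ hω t ht (built_of_torus _ ht h1 h2) hI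
  tfae_finish

end Pool.Agent.Results.MP_45e720_ag.UniversalTorusCurves
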